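import Pool.Agent.E8helper21.Core
import Pool.Agent.E8helper21.Glob3

/-!
# The `p`-part of the Birch and Swinnerton-Dyer conjecture for odd `p`: from `ℚ` to abelian `p`-extensions

`W` is the minimal equation of an elliptic curve `E` over `ℚ`, `p` is an odd prime (`E` may have bad
reduction at `p`, and may have complex multiplication) and `K ⊂ ℚ(ζ_m)` is an abelian number field of degree
`p^n` in which the primes that divide `6 p Δ` split completely, with `m` a squarefree product of primes
`l ≡ 1 mod p` such that `l ∤ 6 p Δ` and `p ∤ #E(𝔽_l)`.  If the `p`-part of the conjecture holds for `E` over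
`ℚ` and its terms (the order of `Ш(E/ℚ)[p^∞]`, the Tamagawa product, the order of `E(ℚ)_tors`) are prime to
`p`, then it holds for `E` over `K`, with all terms prime to `p`: continuation and order of the
`L`-function, rank, finiteness of `Ш[p^∞]`, and the formula for `L(E/K, 1) √|Δ_K| / Ω` up to `p`-adic
units.

The proof.  Algebraic side: `Gal(K/ℚ)` is a `p`-group, so a nonzero element of `E(K) / p`, or a nonzero
element of order `p` of `Ш(E/K)`, gives one that is fixed by `Gal(K/ℚ)` (the latter modulo coboundaries),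
and, as `E(K)` is then seen to be finite of order prime to `p`, it comes from a class of `H¹(ℚ, E)` which is
killed by `p` and locally trivial over `K`.  Such a class is locally trivial over `ℚ`: at the primes that
divide `6 p Δ` since they split; at the other primes `q` by Lang's theorem over the algebraic closure of
`𝔽_q`, the divisibility of the kernel of reduction by `p`, and, at the primes that divide `m`, as `p` does
not divide `#E(𝔽_q)`; at the real place as `p` is odd.  So it is zero.  Analytic side: `L(E/K, s)` is the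
product of the twists `L(E, χ, s)` over the characters of `K`, which are entire, and `τ(χ) L(E, χ⁻¹, 1)` is
the real period times an algebraic number; modulo the primes above `p` these numbers for all `χ` of
`p`-power order and conductor `q` are congruent to a sum of modular symbols, which is `∏ (a_l - 2)` times
the number for `χ = 1` up to a unit.
-/

set_option autoImplicit false

open NumberField NumberField.InfinitePlace IsDedekindDomain WeierstrassCurve MeasureTheory
open UpperHalfPlane MatrixGroups CongruenceSubgroup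

namespace Pool.Agent.Results.MP_9ab903_nt.PPartLiftingH21

open scoped Classical

open Pool.Agent.TH841.NF.D (Sha)
open Pool.Agent.E8helper21.PP

/-- **Main theorem.** Let `p` be an odd prime. Let `W` be a Weierstrass equation with integral
coefficients and discriminant `Δ ≠ 0`; let `f` be the newform of `W`, of a level `N` with the same prime
divisors as `Δ`; let `Λ` be the period lattice of the differential `dx / (2 y + a₁ x + a₃)` of `W` (the
lattice with `g₂ = c₄ / 12`, `g₃ = c₆ / 216`), and assume that `c` times the periods of `2 π i f(z) dz` on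
`Γ₀(N)` are in `Λ` for an integer `c` prime to `p` (the Manin constant is prime to `p`).  Assume that the
`p`-part of the Birch and Swinnerton-Dyer conjecture holds for `W` over `ℚ` and that its terms are prime to
`p`.  Let `m` be squarefree with `l ∤ 6 p Δ`, `l ≡ 1 mod p` and `p ∤ #E(𝔽_l)` for all primes `l` that divide
`m`, `M` the `m`-th cyclotomic field, `K` a subfield of degree `p^n` such that the places that divide
`6 p Δ` have a residue field of prime order, that is, the primes that divide `6 p Δ` split completely in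
`K`.  Then the `p`-part of the Birch and Swinnerton-Dyer conjecture holds for `W` over `K`, and its terms
are prime to `p`. -/
theorem result {N : ℕ} [NeZero N] {p : ℕ} (hp : p.Prime) (hp2 : p ≠ 2) (W : WeierstrassCurve ℤ)
    (hΔ : W.Δ ≠ 0)
    (f : CuspForm (Gamma0 N : Subgroup (GL (Fin 2) ℝ)) 2) (hf : IsNewform W N f)
    (Λ : PeriodPair) (hg₂ : Λ.g₂ = (W.c₄ : ℂ) / 12) (hg₃ : Λ.g₃ = (W.c₆ : ℂ) / 216)
    (hman : ∃ c : ℤ, ¬ (p : ℤ) ∣ c ∧ ∀ γ ∈ Gamma0 N, ∀ z : ℍ,
      (c : ℂ) * (prim f ((γ • z : ℍ) : ℂ) - prim f (z : ℂ)) ∈ Λ.lattice)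
    (hB : BSDPart p ℚ W) (hO : PrimeTo p ℚ W)
    (m : ℕ) [NeZero m] (hsq : Squarefree m)
    (hm : ∀ l : ℕ, l.Prime → l ∣ m → ¬ (l : ℤ) ∣ 6 * p * W.Δ ∧ (p : ℤ) ∣ (l : ℤ) - 1 ∧
      ¬ p ∣ pts W (ZMod l) + 1)
    (M : Type) [Field M] [NumberField M] [IsCyclotomicExtension {m} ℚ M]
    (K : IntermediateField ℚ M) (n : ℕ) (hn : Module.finrank ℚ K = p ^ n)
    (hsplit : ∀ v : HeightOneSpectrum (𝓞 K), ((6 * p * W.Δ : ℤ) : 𝓞 K) ∈ v.asIdeal →
      (Ideal.absNorm v.asIdeal).Prime) :
    BSDPart p K W ∧ PrimeTo p K W := by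
  have hgal : IsGalois ℚ K := Pool.Agent.Y702.L.gal_F m M K
  have hunr : ∀ (p : ℕ), p.Prime → ¬ p ∣ m → ∀ v : HeightOneSpectrum (𝓞 K), (p : 𝓞 K) ∈ v.asIdeal →
      v.valuation K (p : K) = WithZero.exp (-1 : ℤ) :=
    fun p hp hpm v hv => Pool.Agent.Y702.Fn.unr m M K hp hpm v hv
  have hcx : nrComplexPlaces K = 0 := tot_real hp hp2 m M K n hn
  have hfinQ : Finite (base W ℚ).toAffine.Point := hB.points
  have hcardQ : ¬ p ∣ Nat.card (base W ℚ).toAffine.Point := by
    have h := hO.tors
    rw [tors_eq hfinQ, Nat.card_univ] at h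
    exact h
  have hshaQ : ∀ s : Sha (base W ℚ), p • s = 0 → s = 0 := fun s hs => primeTo_sha hO s hs
  obtain ⟨ζ, hζ, hζK⟩ := exists_zeta m M K
  have harith := Pool.Agent.E8helper21.arith_K W hΔ hp K hn (fun h => absurd h hp2) hshaQ hfinQ
    hcardQ (fun l hl hlm => ⟨(hm l hl hlm).1, (hm l hl hlm).2.2⟩) hunr hsplit hζ hζK
  refine core Pool.Agent.Y779.G.s_tamg Pool.Agent.Y852.GS.s_tams
    Pool.Agent.Y852.GS.s_mins Pool.Agent.Y238.G.s_hasp Pool.Agent.Y563.G.s_epq
    hp W hΔ f hf Λ hg₂ hg₃ hman hB hO m hsq (fun l hl hlm => ?_) M K n hn hcx (fun v hv => ?_)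
    harith
  · obtain ⟨h1, h2, h3⟩ := hm l hl hlm
    refine ⟨fun h => h1 ?_, h2, h3⟩
    have e : (6 * p * W.Δ : ℤ) = (3 * p) * (2 * W.Δ) := by ring
    rw [e]
    exact Dvd.dvd.mul_left h _
  · apply hsplit v
    have e : ((6 * p * W.Δ : ℤ) : 𝓞 K) = ((3 * p : ℤ) : 𝓞 K) * ((2 * W.Δ : ℤ) : 𝓞 K) := by
      push_cast
      ring
    rw [e]
    exact Ideal.mul_mem_left _ _ hv

end Pool.Agent.Results.MP_9ab903_nt.PPartLiftingH21
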