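import Pool.Agent.E8helper21.TenAlg
import Pool.Agent.Y153.AREP

/-!
# The `p`-part of the Birch and Swinnerton-Dyer conjecture for the abelian varieties `E ⊗ M`, `M` a lattice
# with an action of an abelian `p`-group, for every prime `p`

`E` is an elliptic curve over `ℚ` with a minimal equation `W`, `p` is a prime number, and `M = ℤ^g` is a
lattice with an action `ρ` of `Gal(ℚ(ζ_m)/ℚ) = (ℤ/m)ˣ` through a `p`-group; `m` is a squarefree product of
primes `l ≡ 1 mod p` that do not divide `6 p Δ` (for `p = 2`: `2 Δ`), such that `p` does not divide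
`#E(𝔽_l)`, the primes that divide `6 p Δ` (for `p = 2`: `2 Δ`) act trivially on `M`, and so does the complex
conjugation (automatic for odd `p`).  The abelian variety `A = E ⊗ M` over `ℚ` has dimension `g` (every
abelian variety over `ℚ` that becomes isomorphic to `E^g` over a subfield of `ℚ(ζ_m)` is of this form if `E`
has no complex multiplication); its dual is `E ⊗ M^∨`.  If the `p`-part of the conjecture holds for `E`
over `ℚ`, with the terms `#Ш(E/ℚ)[p^∞]`, `∏ c_q`, `#E(ℚ)_tors` prime to `p`, then we prove the `p`-part of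
the conjecture for `A`: `A(ℚ)` and `A'(ℚ)` are finite of order prime to `p`, `Ш(A/ℚ)[p^∞] = 0`, the
`L`-function of `A` is entire, and `L(A, 1)` is the product of the volumes `V_∞` and `V_bad` and of a
rational number that is a unit at `p`.  There is no hypothesis on the reduction of `E` at `p`, and `M` is
any lattice, not only a projective one.  (The starting file `TensorTwoPart` is the case `p = 2`, `Δ < 0`,
where the complex conjugation may act in any way.  New are the odd `p` and the curves with `Δ > 0` for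
`p = 2`, where `E(ℝ)` has two components.)

The volumes.  As `m` is squarefree, `A` has at the primes `l ∣ m` good reduction over a tamely ramified
extension; the Néron differential of `A` is, up to a unit at `l`, `l^(-(g - rank M^(I_l)) / 2)` times the
differential given by a basis of `M` and the Néron differential of `E`, and `∫_{A(ℚ_l)} |ω|_l` is a unit
at `p`, as `E` has no point of order `p` modulo `l` and a `p`-group acts on `M`; so these factors do not
appear.  The group `A(ℝ) = E(ℝ)^g` has the volume `realPeriod^g` for the latter differential.  At the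
primes `q ∣ Δ`, where `A` is `E^g`, the volume is the product of `c_q^g`, which is prime to `p`, and of
`#(E_q ⊗ M)⁰(𝔽_q) / q^g = det (1 - a_q / q ρ(q))`.

The proof.  Algebraic side: over the field `K` where `M` becomes trivial `E(K)` is finite of order prime
to `p` and `Ш(E/K)[p^∞] = 0` (`MP_9ab903_nt/PPartLiftingH21` and `TwoPartPositiveH21`); the classes of
`Ш(A/ℚ)[p^∞]` vanish over `K`, and come from `H¹(Gal(K/ℚ), E(K) ⊗ M) = 0`.  Analytic side: the complex
representation of `M` is a sum of characters, stable under the Galois group of the coefficients; the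
product of the values `L(E, χ, 1)`, divided by the period and multiplied by the Gauss sums, is a rational
number, the value at a root of unity of `p`-power order of an integral polynomial whose value at `1` is a
product of numbers `#E(𝔽_l)`, `l ∣ m`, and of units at `p`.
-/

set_option autoImplicit false

open NumberField NumberField.InfinitePlace IsDedekindDomain WeierstrassCurve MeasureTheory
open UpperHalfPlane MatrixGroups CongruenceSubgroup

namespace Pool.Agent.Results.MP_dfae13_nt.PPartTensorH21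

open scoped Classical

open Pool.Agent.E8helper21.PP (base pts realPeriod BSDPart PrimeTo IsNewform prim)
open Pool.Agent.TH841.SH.D (Pt act Gal)

section tensor

/-! ### The abelian variety `A = E ⊗ M`, `M = ℤ^g`

Its points over an algebraic closure of `ℚ` are the `g`-tuples of points of `E`; the Galois group of `ℚ`
acts on them by its action on `E` and the matrices `R(σ)`. -/

/-- The action of an integral matrix on `ℤ^g ⊗ G = G^g`. -/
def mat {G : Type} [AddCommGroup G] {g : ℕ} (A : Matrix (Fin g) (Fin g) ℤ) (P : Fin g → G) :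
    Fin g → G := fun i => ∑ j, A i j • P j

variable {g : ℕ} (W : WeierstrassCurve ℤ) (R : Gal ℚ →* GL (Fin g) ℤ)

/-- The points of `A` over an extension of `ℚ` over which the action on `M` is trivial. -/
abbrev PtA (g : ℕ) (L : Type) [Field L] [Algebra ℚ L] : Type := Fin g → Pt (base W ℚ) L

/-- The action of the Galois group on the points of `A`: `σ` applied to the coordinates, and then the
matrix `R(σ)`. -/
noncomputable def actA (σ : Gal ℚ) (P : PtA W g (AlgebraicClosure ℚ)) :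
    PtA W g (AlgebraicClosure ℚ) :=
  mat (R σ : Matrix (Fin g) (Fin g) ℤ) (fun i => act (base W ℚ) σ.toAlgHom (P i))

/-- `A(ℚ)`. -/
def ptsA : Set (PtA W g (AlgebraicClosure ℚ)) := {P | ∀ σ : Gal ℚ, actA W R σ P = P}

/-- `f` is a continuous cocycle with values in `A`: `f (σ τ) = f σ + σ (f τ)`. -/
def IsCocycle (f : Gal ℚ → PtA W g (AlgebraicClosure ℚ)) : Prop :=
  IsLocallyConstant f ∧ ∀ σ τ : Gal ℚ, f (σ * τ) = f σ + actA W R σ (f τ)

/-- `f` is a coboundary: `f σ = σ P - P`. -/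
def IsCoboundary (f : Gal ℚ → PtA W g (AlgebraicClosure ℚ)) : Prop :=
  ∃ P : PtA W g (AlgebraicClosure ℚ), ∀ σ : Gal ℚ, f σ = actA W R σ P - P

/-- For every embedding of the algebraic closures the restriction of `f` to the absolute Galois
group of `K` is a coboundary: `f σ = τ P - P` for `τ` in this group with restriction `σ`. -/
def LocTriv (K : Type) [Field K] [Algebra ℚ K] (f : Gal ℚ → PtA W g (AlgebraicClosure ℚ)) : Prop :=
  ∀ ι : AlgebraicClosure ℚ →ₐ[ℚ] AlgebraicClosure K, ∃ P : PtA W g (AlgebraicClosure K),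
    ∀ (τ : Gal K) (σ : Gal ℚ), (∀ x, τ (ι x) = ι (σ x)) →
      (fun i => act (base W ℚ) ι (f σ i)) = mat (R σ : Matrix (Fin g) (Fin g) ℤ)
        (fun i => act (base W ℚ) (τ.toAlgHom.restrictScalars ℚ) (P i)) - P

/-- `f` is a continuous cocycle that is locally trivial at all the places of `ℚ`; its class is an
element of `Ш(A/ℚ)`, and this is zero if and only if `f` is a coboundary. -/
def IsShaCocycle (f : Gal ℚ → PtA W g (AlgebraicClosure ℚ)) : Prop :=
  IsCocycle W R f ∧ (∀ (p : ℕ) [Fact p.Prime], LocTriv W R ℚ_[p] f) ∧ LocTriv W R ℝ f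

end tensor

section lattice

variable {m g : ℕ} (ρ : (ZMod m)ˣ →* GL (Fin g) ℤ)

/-- The matrix `ρ(q)` of the Frobenius automorphism at a prime `q` that does not divide `m`. -/
noncomputable def frob (q : ℕ) : Matrix (Fin g) (Fin g) ℤ :=
  if h : q.Coprime m then (ρ (ZMod.unitOfCoprime q h) : Matrix (Fin g) (Fin g) ℤ) else 0

/-- The Euler polynomial of `A = E ⊗ M` at a prime `q` of good reduction that does not divide `m`,
`det (1 - T Frob_q | H¹(A)) = det (1 - a_q T ρ(q) + q T² ρ(q)²)`, where `a_q = q - pts` as `pts` does not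
count the point at infinity. -/
noncomputable def P (W : WeierstrassCurve ℤ) (q : ℕ) (T : ℂ) : ℂ :=
  (1 - ((((q : ℤ) - pts W (ZMod q) : ℤ) : ℂ) * T) • (frob ρ q).map (Int.cast : ℤ → ℂ) +
    ((q : ℂ) * T ^ 2) • ((frob ρ q).map (Int.cast : ℤ → ℂ)) ^ 2).det

/-- `det (1 - a_q / q ρ(q)) = #𝒜⁰(𝔽_q) / q^g` at a prime `q` of bad reduction of `E` that does not
divide `m`. -/
noncomputable def bad (W : WeierstrassCurve ℤ) (q : ℕ) : ℝ :=
  (1 - ((((q : ℤ) - pts W (ZMod q) : ℤ) : ℝ) / q) • (frob ρ q).map (Int.cast : ℤ → ℝ)).det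

/-- The vectors of `M` fixed by the subgroup `H`. -/
noncomputable def fixed (H : Subgroup (ZMod m)ˣ) : Submodule ℤ (Fin g → ℤ) :=
  ⨅ u : H, LinearMap.ker (Matrix.toLin' ((ρ (u : (ZMod m)ˣ) : Matrix (Fin g) (Fin g) ℤ) - 1))

/-- The inertia group at the prime `l ∣ m`, for `m` squarefree: the units congruent to `1` modulo
`m / l`. -/
def inertia (m l : ℕ) : Subgroup (ZMod m)ˣ where
  carrier := {u | ∃ k : ZMod m, (u : ZMod m) = 1 + k * ((m / l : ℕ) : ZMod m)}
  one_mem' := ⟨0, by simp⟩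
  mul_mem' := by
    rintro u v ⟨k, hk⟩ ⟨j, hj⟩
    refine ⟨k + j + k * j * ((m / l : ℕ) : ZMod m), ?_⟩
    rw [Units.val_mul, hk, hj]
    ring
  inv_mem' := by
    rintro u ⟨k, hk⟩
    refine ⟨-k * ((u⁻¹ : (ZMod m)ˣ) : ZMod m), ?_⟩
    have h1 : ((u⁻¹ : (ZMod m)ˣ) : ZMod m) * (u : ZMod m) = 1 := Units.inv_mul u
    have h2 : ((u⁻¹ : (ZMod m)ˣ) : ZMod m) * (1 + k * ((m / l : ℕ) : ZMod m)) = 1 := by
      rw [← hk]; exact h1
    linear_combination h2

/-- The Artin conductor of `M`, `∏_{l ∣ m} l^(g - rank M^(I_l))`, for `m` squarefree. -/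
noncomputable def cond : ℕ :=
  ∏ l ∈ m.primeFactors, l ^ (g - Module.finrank ℤ (fixed ρ (inertia m l)))

/-- `V_∞`, the volume of `A(ℝ) = E(ℝ)^g` for the Néron differential of `A`, if the complex conjugation
acts trivially on `M`. -/
noncomputable def Vinf (W : WeierstrassCurve ℤ) : ℝ := realPeriod W ^ g / √(cond ρ : ℝ)

end lattice

/-- The contragredient: `A ↦ (A⁻¹)ᵀ`.  It gives the action on the dual lattice `M^∨`. -/
noncomputable def contra (g : ℕ) : GL (Fin g) ℤ →* GL (Fin g) ℤ where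
  toFun A := ⟨((A⁻¹ : GL (Fin g) ℤ) : Matrix (Fin g) (Fin g) ℤ).transpose,
    ((A : GL (Fin g) ℤ) : Matrix (Fin g) (Fin g) ℤ).transpose, by
      rw [← Matrix.transpose_mul, ← Units.val_mul, mul_inv_cancel, Units.val_one,
        Matrix.transpose_one], by
      rw [← Matrix.transpose_mul, ← Units.val_mul, inv_mul_cancel, Units.val_one,
        Matrix.transpose_one]⟩
  map_one' := by
    apply Units.ext
    show ((1⁻¹ : GL (Fin g) ℤ) : Matrix (Fin g) (Fin g) ℤ).transpose = 1
    rw [inv_one, Units.val_one, Matrix.transpose_one]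
  map_mul' A B := by
    apply Units.ext
    show (((A * B)⁻¹ : GL (Fin g) ℤ) : Matrix (Fin g) (Fin g) ℤ).transpose =
      ((A⁻¹ : GL (Fin g) ℤ) : Matrix (Fin g) (Fin g) ℤ).transpose *
        ((B⁻¹ : GL (Fin g) ℤ) : Matrix (Fin g) (Fin g) ℤ).transpose
    rw [mul_inv_rev, Units.val_mul, Matrix.transpose_mul]

/-- The curves to which the theorem applies: the curve has a newform, and a multiple by an integer prime
to `p` of its periods is in the period lattice of the equation (Manin constant prime to `p`); the `p`-part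
of the Birch and Swinnerton-Dyer conjecture holds over `ℚ`, with all terms prime to `p`. -/
structure Seed (p : ℕ) (W : WeierstrassCurve ℤ) : Prop where
  disc : W.Δ ≠ 0
  modular : ∃ (N : ℕ) (_ : NeZero N) (f : CuspForm (Gamma0 N : Subgroup (GL (Fin 2) ℝ)) 2)
    (Λ : PeriodPair) (c : ℤ), IsNewform W N f ∧ Λ.g₂ = (W.c₄ : ℂ) / 12 ∧ Λ.g₃ = (W.c₆ : ℂ) / 216 ∧
    ¬ (p : ℤ) ∣ c ∧ ∀ γ ∈ Gamma0 N, ∀ z : ℍ,
      (c : ℂ) * (prim f ((γ • z : ℍ) : ℂ) - prim f (z : ℂ)) ∈ Λ.lattice
  bsd : BSDPart p ℚ W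
  prime : PrimeTo p ℚ W

/-- The exceptional number: `2` for `p = 2` and `6 p` for odd `p`. -/
def exc (p : ℕ) : ℕ := if p = 2 then 2 else 6 * p

/-- **The `p`-part of the Birch and Swinnerton-Dyer conjecture** for `A = E ⊗ M` over `ℚ`: the groups of
the rational points of `A` and of its dual are finite of order prime to `p`; the `p`-primary part of the
Tate-Shafarevich group is zero; the `L`-function (the Euler product over the primes that do not divide
`m Δ`) is entire and its order at `s = 1` is the rank `0`; and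
`L(A, 1) = r V_∞ ∏_{q ∣ Δ} #𝒜⁰(𝔽_q) / q^g`, where `r` is a rational number and a unit at `p`.  Here `κ` is
the cyclotomic character, and `ρ ∘ κ` the action of the Galois group of `ℚ` on `M`. -/
structure PPart (p : ℕ) (W : WeierstrassCurve ℤ) {m g : ℕ} (ρ : (ZMod m)ˣ →* GL (Fin g) ℤ)
    (κ : Gal ℚ →* (ZMod m)ˣ) : Prop where
  points : Finite (ptsA W (ρ.comp κ)) ∧ ¬ p ∣ Nat.card (ptsA W (ρ.comp κ))
  dual : Finite (ptsA W (((contra g).comp ρ).comp κ)) ∧
    ¬ p ∣ Nat.card (ptsA W (((contra g).comp ρ).comp κ))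
  sha : ∀ f, IsShaCocycle W (ρ.comp κ) f → ∀ k : ℕ, IsCoboundary W (ρ.comp κ) (p ^ k • f) →
    IsCoboundary W (ρ.comp κ) f
  formula : ∃ L : ℂ → ℂ, Differentiable ℂ L ∧
    (∀ s : ℂ, 3 / 2 < s.re → HasProd (fun q : Nat.Primes =>
      if ((q : ℕ) : ℤ) ∣ m * W.Δ then 1 else (P ρ W q (((q : ℕ) : ℂ) ^ (-s)))⁻¹) (L s)) ∧
    analyticOrderAt L 1 = 0 ∧
    ∃ r : ℚ, L 1 = r * (Vinf ρ W * ∏ q ∈ W.Δ.natAbs.primeFactors, bad ρ W q) ∧
      r ≠ 0 ∧ padicValRat p r = 0

/-- **Main theorem.** Let `p` be a prime number, `E` an elliptic curve over `ℚ` with the minimal equation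
`W` that satisfies the conditions `Seed`, let `m` be squarefree, with `l ∤ 6 p Δ` (`l ∤ 2 Δ` for `p = 2`),
`l ≡ 1 mod p` and `p ∤ #E(𝔽_l)` for all primes `l` that divide `m`, and let `ρ` be an action of `(ℤ/m)ˣ` on
`M = ℤ^g` through a `p`-group, where `g` is arbitrary, such that the primes that divide `6 p Δ` (`2 Δ` for
`p = 2`) act trivially on `M`, and, for `p = 2`, the complex conjugation acts trivially.  Then the `p`-part
of the Birch and Swinnerton-Dyer conjecture holds for `A = E ⊗ M`, the orders of `A(ℚ)`, `A'(ℚ)` are prime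
to `p` and `Ш(A)[p^∞] = 0`. -/
theorem result (p : ℕ) (hp : p.Prime) (W : WeierstrassCurve ℤ) (hW : Seed p W)
    (m : ℕ) [NeZero m] (hsq : Squarefree m)
    (hm : ∀ l : ℕ, l.Prime → l ∣ m → ¬ (l : ℤ) ∣ exc p * W.Δ ∧ (p : ℤ) ∣ (l : ℤ) - 1 ∧
      ¬ p ∣ pts W (ZMod l) + 1)
    (g n : ℕ) (ρ : (ZMod m)ˣ →* GL (Fin g) ℤ) (hρ : ∀ u, ρ u ^ (p ^ n) = 1)
    (hconj : p = 2 → ρ (-1) = 1)
    (hsplit : ∀ q : ℕ, q.Prime → (q : ℤ) ∣ exc p * W.Δ →
      ∀ u : (ZMod m)ˣ, (u : ZMod m) = q → ρ u = 1)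
    (κ : Gal ℚ →* (ZMod m)ˣ)
    (hκ : ∀ (σ : Gal ℚ) (ζ : AlgebraicClosure ℚ), ζ ^ m = 1 → σ ζ = ζ ^ ((κ σ : ZMod m)).val) :
    PPart p W ρ κ := by
  obtain ⟨hΔ, ⟨N, hN, f, Λ, c, h2, h3, h4, h5, h6⟩, h7, h8⟩ := hW
  have hρ1 : ρ (-1) = 1 := by
    by_cases hp2 : p = 2
    · exact hconj hp2
    · have e1 : ρ (-1) ^ 2 = 1 := by
        rw [← map_pow, neg_one_sq, map_one]
      obtain ⟨k, hk⟩ := (hp.odd_of_ne_two hp2).pow (n := n)
      have e2 := hρ (-1)
      rw [hk, pow_succ, pow_mul, e1, one_pow, one_mul] at e2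
      exact e2
  have hT := Pool.Agent.E8helper21.Ten.triv W hΔ hp h7 h8 m hm ρ hρ hρ1 hsplit
  obtain ⟨a1, a2, a3⟩ := Pool.Agent.E8helper21.Ten.alg_lib W hp ρ hρ κ hκ hT (ρ.comp κ)
    (fun σ hσ => hσ)
  obtain ⟨b1, b2, -⟩ := Pool.Agent.E8helper21.Ten.alg_lib W hp ρ hρ κ hκ hT
    (((contra g).comp ρ).comp κ) (fun σ hσ => by
      show contra g (ρ (κ σ)) = 1
      rw [hσ, map_one])
  obtain ⟨Op, c', s, t, hreal, hPer⟩ := Pool.Agent.E8helper21.Ten.per_of hp W hΔ f h2 Λ h3 h4
    ⟨c, h5, h6⟩ h7 h8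
  obtain ⟨L, c1, c2, c3, r, c4, c5, c6⟩ := Pool.Agent.E8helper21.Ten.lib_an
    Pool.Agent.Y153.AREP.s_rep hp hΔ (Pool.Agent.E8helper21.PP.isForm h2) hreal hPer m hsq
    (fun l hl hlm => by
      obtain ⟨d1, d2, d3⟩ := hm l hl hlm
      refine ⟨fun h => d1 ?_, d2, d3⟩
      unfold exc
      split_ifs with hp2
      · exact h
      · have e : (((6 * p : ℕ) : ℤ) * W.Δ : ℤ) = (3 * p) * (2 * W.Δ) := by push_cast; ring
        rw [e]
        exact Dvd.dvd.mul_left h _) ρ hρ hρ1
  refine ⟨⟨a1, a2⟩, ⟨b1, b2⟩, ?_, L, c1, c2, c3, r, ?_, c5, c6⟩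
  · intro f hf k hk
    exact Pool.Agent.E8helper21.Ten.sha_coc (ρ.comp κ) a3 f hf k hk
  have hpos : 0 < √(cond ρ : ℝ) := by
    apply Real.sqrt_pos.2
    have h1 : 0 < cond ρ := Finset.prod_pos fun l hl =>
      Nat.pow_pos (Nat.prime_of_mem_primeFactors hl).pos
    exact_mod_cast h1
  have hV : Vinf ρ W * ∏ q ∈ W.Δ.natAbs.primeFactors, bad ρ W q =
      Pool.Agent.E8helper21.Ten.V ρ W / √(cond ρ : ℝ) := by
    show realPeriod W ^ g / √(cond ρ : ℝ) * ∏ q ∈ W.Δ.natAbs.primeFactors, bad ρ W q =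
      (realPeriod W ^ g * ∏ q ∈ W.Δ.natAbs.primeFactors, bad ρ W q) / √(cond ρ : ℝ)
    ring
  have hc : ((√(cond ρ : ℝ) : ℝ) : ℂ) ≠ 0 := by exact_mod_cast hpos.ne'
  have h2 : L 1 * ((√(cond ρ : ℝ) : ℝ) : ℂ) =
      r * ((Pool.Agent.E8helper21.Ten.V ρ W : ℝ) : ℂ) := c4
  have h3 : ((Vinf ρ W * ∏ q ∈ W.Δ.natAbs.primeFactors, bad ρ W q : ℝ) : ℂ) =
      ((Pool.Agent.E8helper21.Ten.V ρ W : ℝ) : ℂ) / ((√(cond ρ : ℝ) : ℝ) : ℂ) := by
    rw [hV, Complex.ofReal_div]
  rw [Complex.ofReal_mul] at h3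
  rw [h3]
  field_simp
  exact h2

end Pool.Agent.Results.MP_dfae13_nt.PPartTensorH21
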